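import Pool.Agent.W798.SP.Stm

/-!
# SPX-ST2: third moment of the incidences of lines with a grid
-/

set_option autoImplicit false

open Finset
open scoped Classical Pointwise

namespace Pool.Agent.W108.SP

open Pool.Agent.W798.SP

theorem tST2 (h : S_ST1) : S_ST2 := by
  intro X Y L n m hX hY hL hcard
  obtain ⟨K, hK⟩ : ∃ K : ℝ × ℝ → ℕ, K = fun l => (X.filter (fun x => l.1 * x + l.2 ∈ Y)).card :=
    ⟨_, rfl⟩
  have hK' : ∀ l, (X.filter (fun x => l.1 * x + l.2 ∈ Y)).card = K l := by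
    intro l
    rw [hK]
  simp_rw [hK']
  have hKn : ∀ l, K l ≤ n := fun l => by
    rw [← hK' l]
    exact (card_filter_le _ _).trans hX
  have hXY : X.card ^ 2 * Y.card ^ 2 ≤ (n * m) ^ 2 := by
    rw [mul_pow]
    exact Nat.mul_le_mul (Nat.pow_le_pow_left hX 2) (Nat.pow_le_pow_left hY 2)
  -- small multiplicities
  have h0 : ∑ l ∈ L.filter (fun l => ¬ 2 ≤ K l), K l ^ 3 ≤ (n * m) ^ 2 := by
    refine le_trans ?_ hcard
    calc ∑ l ∈ L.filter (fun l => ¬ 2 ≤ K l), K l ^ 3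
        ≤ ∑ l ∈ L.filter (fun l => ¬ 2 ≤ K l), 1 := by
          refine sum_le_sum fun l hl => ?_
          have h1 : ¬ 2 ≤ K l := (mem_filter.1 hl).2
          have h2 : K l ≤ 1 := by omega
          calc K l ^ 3 ≤ 1 ^ 3 := Nat.pow_le_pow_left h2 3
            _ = 1 := by norm_num
      _ = (L.filter (fun l => ¬ 2 ≤ K l)).card := by simp
      _ ≤ L.card := card_filter_le _ _
  -- dyadic pieces
  have h1 : ∀ j : ℕ, ∑ l ∈ (L.filter (fun l => 2 ≤ K l)).filter (fun l => Nat.log 2 (K l) = j),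
      K l ^ 3 ≤ 4096 * (n * m) ^ 2 := by
    intro j
    obtain ⟨S, hS⟩ : ∃ S, S = (L.filter (fun l => 2 ≤ K l)).filter
      (fun l => Nat.log 2 (K l) = j) := ⟨_, rfl⟩
    rw [← hS]
    have hmem : ∀ l ∈ S, l ∈ L ∧ 2 ≤ K l ∧ Nat.log 2 (K l) = j := by
      intro l hl
      rw [hS, mem_filter, mem_filter] at hl
      exact ⟨hl.1.1, hl.1.2, hl.2⟩
    rcases S.eq_empty_or_nonempty with he | ⟨l₀, hl₀⟩
    · rw [he, sum_empty]
      exact Nat.zero_le _
    · have hj : 1 ≤ j := by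
        rw [← (hmem l₀ hl₀).2.2]
        exact Nat.log_pos (by norm_num) (hmem l₀ hl₀).2.1
      have h2j : 2 ≤ 2 ^ j := by
        calc 2 = 2 ^ 1 := by norm_num
          _ ≤ 2 ^ j := Nat.pow_le_pow_right (by norm_num) hj
      have h3 := h X Y S (2 ^ j) h2j (fun l hl => by
        obtain ⟨a1, a2, a3⟩ := hmem l hl
        refine ⟨hL l a1, ?_⟩
        rw [hK' l, ← a3]
        exact Nat.pow_log_le_self 2 (by omega))
      have h4 : ∀ l ∈ S, K l ^ 3 ≤ 8 * (2 ^ j) ^ 3 := by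
        intro l hl
        obtain ⟨a1, a2, a3⟩ := hmem l hl
        have h5 : K l ≤ 2 * 2 ^ j := by
          have := Nat.lt_pow_succ_log_self (b := 2) (by norm_num) (K l)
          rw [a3, Nat.succ_eq_add_one, pow_succ] at this
          omega
        calc K l ^ 3 ≤ (2 * 2 ^ j) ^ 3 := Nat.pow_le_pow_left h5 3
          _ = 8 * (2 ^ j) ^ 3 := by ring
      calc ∑ l ∈ S, K l ^ 3 ≤ ∑ l ∈ S, 8 * (2 ^ j) ^ 3 := sum_le_sum h4
        _ = 8 * (S.card * (2 ^ j) ^ 3) := by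
          rw [sum_const, smul_eq_mul]
          ring
        _ ≤ 8 * (512 * X.card ^ 2 * Y.card ^ 2) := Nat.mul_le_mul_left _ h3
        _ = 4096 * (X.card ^ 2 * Y.card ^ 2) := by ring
        _ ≤ 4096 * (n * m) ^ 2 := Nat.mul_le_mul_left _ hXY
  have h2 : ∑ l ∈ L.filter (fun l => 2 ≤ K l), K l ^ 3 ≤
      (Nat.log 2 n + 1) * (4096 * (n * m) ^ 2) := by
    rw [← sum_fiberwise_of_maps_to (s := L.filter (fun l => 2 ≤ K l))
      (t := range (Nat.log 2 n + 1)) (g := fun l => Nat.log 2 (K l))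
      (fun l _ => by
        rw [mem_range]
        exact Nat.lt_succ_of_le (Nat.log_mono_right (hKn l)))]
    calc ∑ j ∈ range (Nat.log 2 n + 1), ∑ l ∈ (L.filter (fun l => 2 ≤ K l)).filter
          (fun l => Nat.log 2 (K l) = j), K l ^ 3
        ≤ ∑ j ∈ range (Nat.log 2 n + 1), 4096 * (n * m) ^ 2 := sum_le_sum fun j _ => h1 j
      _ = _ := by rw [sum_const, card_range, smul_eq_mul]
  rw [← sum_filter_add_sum_filter_not L (fun l => 2 ≤ K l)]
  have h3 : (n * m) ^ 2 ≤ (Nat.log 2 n + 1) * (n * m) ^ 2 := Nat.le_mul_of_pos_left _ (by omega)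
  calc _ ≤ (Nat.log 2 n + 1) * (4096 * (n * m) ^ 2) + (n * m) ^ 2 := Nat.add_le_add h2 h0
    _ ≤ (Nat.log 2 n + 1) * (4096 * (n * m) ^ 2) + (Nat.log 2 n + 1) * (n * m) ^ 2 :=
      Nat.add_le_add_left h3 _
    _ = 4097 * (Nat.log 2 n + 1) * (n * m) ^ 2 := by ring

end Pool.Agent.W108.SP
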